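import Pool.Agent.Run7.h887.CMA.Glob

/-!
The local complex Monge-Ampere flow has no solution when the plurisubharmonic initial datum has a
positive Lelong number at a point of the domain; in particular Q1 is false in every dimension.
-/

open Set Filter Topology Metric MeasureTheory Run7.h887.CMA
open scoped ContDiff ComplexOrder

theorem Pool.Agent.Results.MP_8f0dee_an.LelongObstruction.result :
    -- Q1 is false in every dimension
    (∀ n : ℕ, 1 ≤ n → ¬ Q1 n) ∧
    -- on every domain, for every point `a` and every `T`, the datum `log |z - a|` has no solution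
    (∀ (n : ℕ) (Ω : Set (Cn n)) (T : ℝ) (a : Cn n), 1 ≤ n → StrictlyPseudoconvexDomain Ω →
      0 < T → a ∈ Ω →
        ∃ φ, IsData Ω T (logDist a) φ ∧ ¬ ∃ u, IsSolution Ω T (logDist a) φ u) ∧
    -- a positive Lelong number at a point of a bounded open set excludes solutions
    (∀ (n : ℕ) (Ω : Set (Cn n)) (T : ℝ) (u₀ : Cn n → EReal) (φ : Cn n → ℝ → ℝ) (a : Cn n),
      1 ≤ n → IsOpen Ω → Bornology.IsBounded Ω → 0 < T → IsData Ω T u₀ φ → a ∈ Ω →
        PositiveLelong u₀ a → ¬ ∃ u, IsSolution Ω T u₀ φ u) ∧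
    -- the local obstruction, for subsolutions with a weak initial condition
    (∀ (n : ℕ) (a : Cn n) (R T M c C : ℝ) (u : Cn n → ℝ → ℝ), 1 ≤ n → 0 < R → 0 < T → 0 < c →
      ContDiffOn ℝ 2 (fun p : Cn n × ℝ => u p.1 p.2) (ball a R ×ˢ Ioo 0 T) →
      (∀ t ∈ Ioo 0 T, ∀ z ∈ ball a R, (cHess (fun w => u w t) z).PosDef) →
      (∀ t ∈ Ioo 0 T, ∀ z ∈ ball a R,
        deriv (fun s => u z s) t ≤ Real.log (cHess (fun w => u w t) z).det.re) →
      (∀ t ∈ Ioo 0 T, ∀ z ∈ ball a R, u z t ≤ M) →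
      ¬ ∀ᵐ z ∂(volume : Measure (Cn n)), z ∈ ball a R → ∀ ε > 0, ∀ᶠ t in 𝓝[>] (0 : ℝ),
        u z t ≤ c * Real.log ‖z - a‖ + C + ε) := by
  refine ⟨fun n hn => not_Q1 hn, ?_, ?_, ?_⟩
  · intro n Ω T a hn hΩ hT ha
    obtain ⟨φ, hφ⟩ := exists_data hΩ.isOpen ha T
    exact ⟨φ, hφ, no_solution hn hΩ.isOpen hΩ.bounded hT hφ ha (logDist_lelong a)⟩
  · intro n Ω T u₀ φ a hn hΩ hb hT hd ha hL
    exact no_solution hn hΩ hb hT hd ha hL
  · intro n a R T M c C u hn hR hT hc hu hpd hflow hM hini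
    exact local_obstruction hn hR hT hc hu hpd hflow hM hini
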